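import Pool.Agent.Q256.EC.Stm

set_option autoImplicit false

namespace Pool.Agent.Q179.EC

open MvPolynomial
open Pool.Agent.Q256.EC
open Pool.Agent.Q170.GP (tht Prim)

theorem exists_r {F : Type} [Field F] (θ : F →+* ℂ) :
    ∃ r : ℂ →+ F, (∀ c z, r (θ c * z) = c * r z) ∧ r 1 = 1 := by
  let _ : Module F ℂ := Module.compHom ℂ θ
  have hsm : ∀ (c : F) (z : ℂ), c • z = θ c * z := fun _ _ => rfl
  let f : F →ₗ[F] ℂ :=
    { toFun := θ
      map_add' := map_add θ
      map_smul' := fun c z => by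
        rw [smul_eq_mul, map_mul, RingHom.id_apply, hsm] }
  have hf : LinearMap.ker f = ⊥ := by
    rw [LinearMap.ker_eq_bot]
    exact θ.injective
  obtain ⟨g, hg⟩ := LinearMap.exists_leftInverse_of_injective f hf
  refine ⟨g.toAddMonoidHom, fun c z => ?_, ?_⟩
  · have := g.map_smul c z
    rw [hsm] at this
    exact this
  · have h1 := LinearMap.congr_fun hg 1
    have h2 : f 1 = 1 := map_one θ
    rw [LinearMap.comp_apply, h2] at h1
    exact h1

section
variable {F ι : Type} [Field F] (θ : F →+* ℂ) (r : ℂ →+ F)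

/-- apply `r` to the coefficients -/
noncomputable def RR (Q : MvPolynomial ι ℂ) : MvPolynomial ι F :=
  ∑ κ ∈ Q.support, monomial κ (r (coeff κ Q))

theorem coeff_RR (Q : MvPolynomial ι ℂ) (κ : ι →₀ ℕ) : coeff κ (RR r Q) = r (coeff κ Q) := by
  classical
  unfold RR
  rw [coeff_sum]
  simp only [coeff_monomial]
  rw [Finset.sum_ite_eq']
  split_ifs with h
  · rfl
  · rw [MvPolynomial.notMem_support_iff.1 h, map_zero]

theorem RR_hom {Q : MvPolynomial ι ℂ} {s : ℕ} (h : Q.IsHomogeneous s) :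
    (RR r Q).IsHomogeneous s := by
  intro d hd
  refine h (fun h0 => hd ?_)
  rw [coeff_RR, h0, map_zero]

theorem eval_RR (hr : ∀ c z, r (θ c * z) = c * r z) (Q : MvPolynomial ι ℂ) (y : ι → F) :
    eval y (RR r Q) = r (eval (fun i => θ (y i)) Q) := by
  unfold RR
  rw [map_sum, MvPolynomial.eval_eq, map_sum]
  refine Finset.sum_congr rfl fun d _ => ?_
  rw [eval_monomial]
  have e : (∏ i ∈ d.support, (fun i => θ (y i)) i ^ d i) = θ (∏ i ∈ d.support, y i ^ d i) := by
    rw [map_prod]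
    exact Finset.prod_congr rfl fun i _ => by rw [map_pow]
  rw [e, mul_comm (coeff d Q), hr, mul_comm]
  rfl

end

theorem span_form {R S ι : Type} [CommRing R] [CommRing S] (f : R →+* S)
    (J : Set (MvPolynomial ι R)) (x : MvPolynomial ι S)
    (hx : x ∈ Ideal.span ((fun G => map f G) '' J)) :
    ∃ (n : ℕ) (A : Fin n → MvPolynomial ι S) (G : Fin n → MvPolynomial ι R),
      (∀ k, G k ∈ J) ∧ x = ∑ k, A k * map f (G k) := by
  unfold Ideal.span at hx
  induction hx using Submodule.span_induction with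
  | mem x hx =>
    obtain ⟨G, hG, rfl⟩ := hx
    exact ⟨1, fun _ => 1, fun _ => G, fun _ => hG, by simp⟩
  | zero => exact ⟨0, fun _ => 0, fun k => k.elim0, fun k => k.elim0, by simp⟩
  | add x y _ _ ihx ihy =>
    obtain ⟨n, A, G, h1, rfl⟩ := ihx
    obtain ⟨m, B, H, h2, rfl⟩ := ihy
    refine ⟨n + m, Fin.append A B, Fin.append G H, ?_, ?_⟩
    · intro k
      induction k using Fin.addCases with
      | left i => rw [Fin.append_left]; exact h1 i
      | right i => rw [Fin.append_right]; exact h2 i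
    · rw [Fin.sum_univ_add]
      simp only [Fin.append_left, Fin.append_right]
  | smul a x _ ih =>
    obtain ⟨n, A, G, h1, rfl⟩ := ih
    refine ⟨n, fun k => a * A k, G, h1, ?_⟩
    rw [smul_eq_mul, Finset.mul_sum]
    exact Finset.sum_congr rfl fun k _ => (mul_assoc _ _ _).symm

theorem ipw : S_NUL → S_IPW := by
  intro hnul p _ θ N J γ P hγ hx
  obtain ⟨s, e, h, h1, h2, h3⟩ := hnul p θ N J γ P hγ hx
  obtain ⟨r, hr, hr1⟩ := exists_r θ
  have tht_eq : ∀ z : ℤ_[p], tht θ z = θ (z : ℚ_[p]) := fun z => rfl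
  refine ⟨s * e, e, RR r (h ^ e), RR_hom r (h1.pow e), ?_, ?_⟩
  · rw [eval_RR θ r hr]
    have : eval (fun i => θ ((γ i : ℚ_[p]))) (h ^ e) = 1 := by
      rw [map_pow]
      have h4 : eval (fun i => θ ((γ i : ℚ_[p]))) h = 1 := h2
      rw [h4, one_pow]
    rw [this, hr1]
  · intro a b
    obtain ⟨n, A, G, hG, hsum⟩ := span_form (tht θ) J _ (h3 a b)
    refine ⟨n, fun k => RR r (A k), G, hG, fun y => ?_⟩
    have h4 := congrArg (fun q => r (eval (fun i => θ ((y i : ℚ_[p]))) q)) hsum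
    replace h4 : r (eval (fun i => θ ((y i : ℚ_[p])))
        (((C (tht θ (γ b)) * X a - C (tht θ (γ a)) * X b) * h) ^ e)) =
        r (eval (fun i => θ ((y i : ℚ_[p]))) (∑ k, A k * map (tht θ) (G k))) := h4
    have e1 : eval (fun i => θ ((y i : ℚ_[p])))
        (((C (tht θ (γ b)) * X a - C (tht θ (γ a)) * X b) * h) ^ e) =
        θ (((y a * γ b - y b * γ a : ℤ_[p]) : ℚ_[p]) ^ e) *
          eval (fun i => θ ((y i : ℚ_[p]))) (h ^ e) := by
      rw [mul_pow, map_mul, map_pow, map_sub, map_mul, map_mul, eval_C, eval_C, eval_X, eval_X,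
        tht_eq, tht_eq, map_pow θ]
      congr 2
      rw [← map_mul, ← map_mul, ← map_sub]
      congr 1
      push_cast
      ring
    rw [e1, hr] at h4
    have e2 : r (eval (fun i => θ ((y i : ℚ_[p]))) (h ^ e)) =
        eval (fun i => ((y i : ℚ_[p]))) (RR r (h ^ e)) := (eval_RR θ r hr _ _).symm
    rw [e2] at h4
    rw [h4, map_sum, map_sum]
    refine Finset.sum_congr rfl fun k _ => ?_
    rw [map_mul, eval_RR θ r hr]
    have e3 : eval (fun i => θ ((y i : ℚ_[p]))) (map (tht θ) (G k)) =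
        θ ((eval y (G k) : ℤ_[p]) : ℚ_[p]) := by
      rw [eval_map]
      have := eval₂_comp_left (tht θ) (RingHom.id ℤ_[p]) y (G k)
      rw [RingHom.comp_id] at this
      exact this.symm
    rw [e3, mul_comm, hr, mul_comm]

end Pool.Agent.Q179.EC
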